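import Pool.Agent.V7H85.BS.Base

/-! Piece ORT: the orthogonality of `G`. -/

set_option autoImplicit false

namespace Pool.Agent.V7H89.BS

open Finset Matrix
open Pool.Agent.R478.BES
open Pool.Agent.V7H85.BS

theorem t_ORT : S_ORT := by
  intro F _ _ _ _ e G hne _ hsq hG z w hz hw
  obtain ⟨l, hl⟩ := exists_sq z
  obtain ⟨l', hl'⟩ := exists_sq w
  have hl0 : l ≠ 0 := by rintro rfl; apply hz; rw [hl]; ring
  have hl0' : l' ≠ 0 := by rintro rfl; apply hw; rw [hl']; ring
  have hzw : (z = w) ↔ (l = l') := by rw [hl, hl', sq_inj]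
  -- the sum over `Y`
  have h1 : ∑ y : Fˣ, G (y * z) * G (y * w) =
      ∑ Y : F, (if Y = 0 then 0 else G (l ^ 2 / Y) * G (l' ^ 2 / Y)) := by
    rw [← sum_units (fun Y : F => G (l ^ 2 / Y) * G (l' ^ 2 / Y))]
    refine Fintype.sum_equiv (Equiv.inv Fˣ) _ _ fun y => ?_
    have h2 : (((Equiv.inv Fˣ) y : Fˣ) : F) = (y : F)⁻¹ := by simp
    rw [h2, ← hl, ← hl', div_inv_eq_mul, div_inv_eq_mul, mul_comm z, mul_comm w]
  rw [h1, Finset.sum_congr rfl fun Y _ => ADDh e G hsq hG l l' Y, Finset.sum_sub_distrib,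
    Finset.sum_comm]
  have h3 : ∑ Y : F, (if l = l' ∧ l ≠ 0 then e (Y / l ^ 2) else 0) = 0 := by
    by_cases h : l = l' ∧ l ≠ 0
    · simp only [h, if_true]
      have h4 : ∀ Y : F, e (Y / l ^ 2) = e ((l ^ 2)⁻¹ * Y) := fun Y => by
        rw [div_eq_inv_mul]
      have h5 := sum_e e hne (l ^ 2)⁻¹
      rw [if_neg (inv_ne_zero (pow_ne_zero 2 hl0))] at h5
      rw [← h5]
      refine Finset.sum_congr rfl fun Y _ => ?_
      simp only [ne_eq, hl0', not_false_eq_true, and_self, if_true, ← h4]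
      rw [← h.1]
    · simp only [h, if_false, Finset.sum_const_zero]
  have h6 : ∀ c : F, (∑ Y : F, if c ^ 2 * Y + l * l' * c + (l + l') ^ 2 = 0 then G c else 0) =
      G c + (if c = 0 then (if z = w then (Fintype.card F : ℂ) else 0) - 1 else 0) := by
    intro c
    by_cases hc : c = 0
    · subst hc
      have h7 : ((0 : F) ^ 2 * 0 + l * l' * 0 + (l + l') ^ 2 = 0) ↔ z = w := by
        rw [hzw]
        constructor
        · intro h
          have : (l + l') ^ 2 = 0 := by rw [← h]; ring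
          exact CharTwo.add_eq_zero.1 (pow_eq_zero_iff (two_ne_zero) |>.1 this)
        · intro h
          rw [h, CharTwo.add_self_eq_zero]; ring
      have h8 : ∀ Y : F, ((0 : F) ^ 2 * Y + l * l' * 0 + (l + l') ^ 2 = 0) ↔ z = w := by
        intro Y
        rw [← h7]
        have h9 : (0 : F) ^ 2 * Y + l * l' * 0 + (l + l') ^ 2 =
            (0 : F) ^ 2 * 0 + l * l' * 0 + (l + l') ^ 2 := by ring
        rw [h9]
      simp only [h8, Finset.sum_const, Finset.card_univ, nsmul_eq_mul, hG.g0, if_true]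
      split_ifs <;> ring
    · rw [if_neg hc, add_zero]
      have h8 : ∀ Y : F, (c ^ 2 * Y + l * l' * c + (l + l') ^ 2 = 0) ↔
          Y = (l * l' * c + (l + l') ^ 2) / c ^ 2 := by
        intro Y
        rw [eq_div_iff (pow_ne_zero 2 hc), add_assoc, CharTwo.add_eq_zero, mul_comm]
      simp only [h8, Finset.sum_ite_eq', mem_univ, if_true]
  rw [Finset.sum_congr rfl fun c _ => h6 c, Finset.sum_add_distrib, hG.g1, h3,
    Finset.sum_ite_eq']
  simp

end Pool.Agent.V7H89.BS
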