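import Pool.Agent.V7H85.BS.Spec

/-! Piece TR: the trace theorem for a commuting Hermitian family. -/

set_option autoImplicit false

namespace Pool.Agent.V7H89.BS

open Finset Matrix Module TensorProduct
open Pool.Agent.R478.BES
open Pool.Agent.V7H85.BS

/-- abstract form of the trace theorem, no cyclicity assumed. -/
theorem trE {E : Type*} [NormedAddCommGroup E] [InnerProductSpace ℂ E] [FiniteDimensional ℂ E]
    {J : Type*} [Fintype J] (K : J → E →ₗ[ℂ] E) (c : J → ℂ) (hc : ∀ j, c j ≠ 0)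
    (hsym : ∀ j, (c j • K j).IsSymmetric) (hcomm : ∀ i j, K i ∘ₗ K j = K j ∘ₗ K i)
    (v u : E) (x : J → E) (a : J → ℂ) (ha : ∀ z, a z ≠ 0) (hx : ∀ z, K z v = a z • x z)
    (P P' : E →ₗ[ℂ] E) (π π' : J → J)
    (hP : ∀ j, P ∘ₗ K j = K (π j) ∘ₗ P) (hP' : ∀ j, P' ∘ₗ K j = K (π' j) ∘ₗ P')
    (hPv : P v = v) (hPv' : P' v = v)
    (hd : ∀ w, P w - P' w = ∑ z, inner ℂ (x z) w • (x (π z) - x (π' z)))
    (hpi : ∀ f : J → ℂ, f ∘ π = f ↔ f ∘ π' = f) :
    ∑ z, inner ℂ (x z) (K (π z) u) / a (π z) = ∑ z, inner ℂ (x z) (K (π' z) u) / a (π' z) := by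
  classical
  set A : Subalgebra ℂ (Module.End ℂ E) := Algebra.adjoin ℂ (Set.range fun j => (K j : Module.End ℂ E))
    with hA
  have hKA : ∀ j, (K j : Module.End ℂ E) ∈ A := fun j => Algebra.subset_adjoin ⟨j, rfl⟩
  have stab : ∀ S : Submodule ℂ E, (∀ j, ∀ w ∈ S, K j w ∈ S) → ∀ B ∈ A, ∀ w ∈ S, B w ∈ S := by
    intro S hS B hB
    refine Algebra.adjoin_induction (p := fun B _ => ∀ w ∈ S, B w ∈ S) ?_ ?_ ?_ ?_ hB
    · rintro _ ⟨j, rfl⟩ w hw
      exact hS j w hw
    · intro r w hw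
      rw [Module.algebraMap_end_apply]
      exact S.smul_mem r hw
    · intro B C _ _ h1 h2 w hw
      exact S.add_mem (h1 w hw) (h2 w hw)
    · intro B C _ _ h1 h2 w hw
      exact h1 _ (h2 w hw)
  have hcA : ∀ B ∈ A, ∀ j w, B (K j w) = K j (B w) := by
    intro B hB
    refine Algebra.adjoin_induction (p := fun B _ => ∀ j w, B (K j w) = K j (B w)) ?_ ?_ ?_ ?_ hB
    · rintro _ ⟨i, rfl⟩ j w
      exact congrArg (fun f => f w) (hcomm i j)
    · intro r j w
      rw [Module.algebraMap_end_apply, Module.algebraMap_end_apply, map_smul]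
    · intro B C _ _ h1 h2 j w
      rw [LinearMap.add_apply, LinearMap.add_apply, h1, h2, map_add]
    · intro B C _ _ h1 h2 j w
      show B (C (K j w)) = K j (B (C w))
      rw [h2, h1]
  set W : Submodule ℂ E := (Subalgebra.toSubmodule A).map (LinearMap.applyₗ v) with hW
  have memW : ∀ w, w ∈ W ↔ ∃ B ∈ A, B v = w := by
    intro w
    rw [hW, Submodule.mem_map]
    rfl
  have hvW : v ∈ W := (memW v).2 ⟨1, A.one_mem, rfl⟩
  have hKW : ∀ j, ∀ w ∈ W, K j w ∈ W := by
    intro j w hw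
    obtain ⟨B, hB, rfl⟩ := (memW w).1 hw
    exact (memW _).2 ⟨(K j : Module.End ℂ E) * B, A.mul_mem (hKA j) hB, rfl⟩
  have hmin : ∀ S : Submodule ℂ E, v ∈ S → (∀ j, ∀ w ∈ S, K j w ∈ S) → W ≤ S := by
    intro S hv hS w hw
    obtain ⟨B, hB, rfl⟩ := (memW w).1 hw
    exact stab S hS B hB v hv
  have hKo : ∀ j, ∀ y ∈ Wᗮ, K j y ∈ Wᗮ := by
    intro j y hy
    rw [Submodule.mem_orthogonal] at hy ⊢
    intro w hw
    have h1 : inner ℂ ((c j • K j) w) y = inner ℂ w ((c j • K j) y) := hsym j w y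
    rw [LinearMap.smul_apply, LinearMap.smul_apply,
      hy _ (W.smul_mem (c j) (hKW j w hw)), inner_smul_right] at h1
    rcases mul_eq_zero.1 h1.symm with h | h
    · exact absurd h (hc j)
    · exact h
  have hxW : ∀ z, x z ∈ W := by
    intro z
    have h1 : x z = (a z)⁻¹ • K z v := by
      rw [hx, smul_smul, inv_mul_cancel₀ (ha z), one_smul]
    rw [h1]
    exact W.smul_mem _ (hKW z v hvW)
  obtain ⟨u', hu', u'', hu'', huu⟩ := W.exists_add_mem_mem_orthogonal u
  obtain ⟨B, hB, hBv⟩ := (memW u').1 hu'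
  have hBW : ∀ w ∈ W, B w ∈ W := stab W hKW B hB
  have hPW : ∀ (Q : E →ₗ[ℂ] E) (ρ : J → J), (∀ j, Q ∘ₗ K j = K (ρ j) ∘ₗ Q) → Q v = v →
      ∀ w ∈ W, Q w ∈ W := by
    intro Q ρ hQ hQv w hw
    have := hmin (W.comap Q) (by rw [Submodule.mem_comap, hQv]; exact hvW) (by
      intro j w hw
      rw [Submodule.mem_comap] at hw ⊢
      have h1 : Q (K j w) = K (ρ j) (Q w) := congrArg (fun f => f w) (hQ j)
      rw [h1]
      exact hKW _ _ hw)
    exact this hw
  have hPW1 := hPW P π hP hPv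
  have hPW2 := hPW P' π' hP' hPv'
  have htr := trace_comp_eq (E := W) (fun j => (K j).restrict (hKW j)) c hc (by
      intro j y z
      have h1 := hsym j y z
      exact h1) (by
      intro i j
      ext w
      exact congrArg (fun f => f (w : E)) (hcomm i j)) (B.restrict hBW) (by
      intro j
      ext w
      exact (hcA B hB j w).symm) ⟨v, hvW⟩ (by
      intro W' hv hS
      have h1 := hmin (W'.map W.subtype) ⟨_, hv, rfl⟩ (by
        rintro j _ ⟨w, hw, rfl⟩
        exact ⟨_, hS j w hw, rfl⟩)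
      rw [eq_top_iff]
      intro w _
      obtain ⟨w', hw', h2⟩ := h1 w.2
      have h3 : w' = w := Subtype.ext h2
      rw [← h3]; exact hw') (P.restrict hPW1) (P'.restrict hPW2) π π' (by
      intro j
      ext w
      exact congrArg (fun f => f (w : E)) (hP j)) (by
      intro j
      ext w
      exact congrArg (fun f => f (w : E)) (hP' j)) (Subtype.ext hPv) (Subtype.ext hPv') hpi
  -- the difference is of finite rank
  have hdiff : (B.restrict hBW) ∘ₗ (P.restrict hPW1) - (B.restrict hBW) ∘ₗ (P'.restrict hPW2) =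
      dualTensorHom ℂ W W (∑ z, (((innerSL ℂ (x z)).toLinearMap ∘ₗ W.subtype : Module.Dual ℂ W) ⊗ₜ
        (⟨B (x (π z) - x (π' z)), hBW _ (W.sub_mem (hxW _) (hxW _))⟩ : W))) := by
    ext w
    rw [map_sum]
    simp only [LinearMap.sub_apply, LinearMap.comp_apply, AddSubgroupClass.coe_sub,
      LinearMap.coe_restrict_apply, LinearMap.sum_apply, dualTensorHom_apply]
    rw [← map_sub, hd, map_sum]
    simp only [map_smul]
    rw [AddSubmonoidClass.coe_finsetSum]
    refine Finset.sum_congr rfl fun z _ => ?_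
    rfl
  have htr2 : ∑ z, inner ℂ (x z) (B (x (π z) - x (π' z))) = 0 := by
    have h1 := congrArg (LinearMap.trace ℂ W) hdiff
    rw [map_sub, htr, sub_self, LinearMap.trace_eq_contract_apply, map_sum] at h1
    simp only [contractLeft_apply] at h1
    exact h1.symm
  have hone : ∀ z z', inner ℂ (x z) (B (x z')) = inner ℂ (x z) (K z' u) / a z' := by
    intro z z'
    have h1 : x z' = (a z')⁻¹ • K z' v := by
      rw [hx, smul_smul, inv_mul_cancel₀ (ha z'), one_smul]
    rw [h1, map_smul, hcA B hB, hBv, inner_smul_right, huu, map_add, inner_add_right]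
    have h2 : inner ℂ (x z) (K z' u'') = 0 :=
      (Submodule.mem_orthogonal W _).1 (hKo z' u'' hu'') _ (hxW z)
    rw [h2, add_zero, div_eq_inv_mul]
  simp only [map_sub, inner_sub_right, hone, Finset.sum_sub_distrib] at htr2
  exact sub_eq_zero.1 htr2

theorem t_TR : S_TR := by
  intro ι J _ _ _ K c hc hH hK v u f a hf ha hKv τ τ' π π' hτ hτ' hτ0 hτ0' hP hP' hPv hPv' hpi
  classical
  have hmul : ∀ A B : Matrix ι ι ℂ, toEuclideanLin (A * B) =
      toEuclideanLin A ∘ₗ toEuclideanLin B := fun A B => toLpLin_mul 2 2 2 A B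
  have hin : ∀ (i : ι) (w : EuclideanSpace ℂ ι), inner ℂ (EuclideanSpace.single i (1 : ℂ)) w = w i := by
    intro i w
    rw [EuclideanSpace.inner_single_left]
    simp
  have hPe : ∀ (σ : Equiv.Perm ι) (w : EuclideanSpace ℂ ι),
      toEuclideanLin (Pm σ) w = ∑ i, w i • EuclideanSpace.single (σ i) (1 : ℂ) := by
    intro σ w
    ext k
    have h1 : (toEuclideanLin (Pm σ) w) k = (Pm σ *ᵥ (WithLp.ofLp w)) k := rfl
    rw [h1, Matrix.mulVec, dotProduct]
    simp only [Pm, ite_mul, one_mul, zero_mul, WithLp.ofLp_sum, WithLp.ofLp_smul, Finset.sum_apply,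
      Pi.smul_apply, smul_eq_mul]
    refine Finset.sum_congr rfl fun i _ => ?_
    by_cases h : k = σ i
    · subst h; simp
    · simp [h]
  have key := trE (E := EuclideanSpace ℂ ι) (fun j => toEuclideanLin (K j)) c hc (by
      intro j
      show (c j • toEuclideanLin (K j)).IsSymmetric
      rw [← map_smul]
      exact isSymmetric_toEuclideanLin_iff.2 (hH j)) (by
      intro i j
      show toEuclideanLin (K i) ∘ₗ toEuclideanLin (K j) = toEuclideanLin (K j) ∘ₗ toEuclideanLin (K i)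
      rw [← hmul, ← hmul, hK]) (WithLp.toLp 2 v) (WithLp.toLp 2 u)
    (fun z => EuclideanSpace.single (f z) (1 : ℂ)) a ha (by
      intro z
      show WithLp.toLp 2 (K z *ᵥ v) = _
      rw [hKv]
      ext k
      simp [Pi.single_apply]) (toEuclideanLin (Pm τ)) (toEuclideanLin (Pm τ')) π π' (by
      intro j
      show toEuclideanLin (Pm τ) ∘ₗ toEuclideanLin (K j) =
        toEuclideanLin (K (π j)) ∘ₗ toEuclideanLin (Pm τ)
      rw [← hmul, ← hmul, hP]) (by
      intro j
      show toEuclideanLin (Pm τ') ∘ₗ toEuclideanLin (K j) =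
        toEuclideanLin (K (π' j)) ∘ₗ toEuclideanLin (Pm τ')
      rw [← hmul, ← hmul, hP']) (by
      show WithLp.toLp 2 (Pm τ *ᵥ v) = _
      rw [hPv]) (by
      show WithLp.toLp 2 (Pm τ' *ᵥ v) = _
      rw [hPv']) (by
      intro w
      rw [hPe, hPe, ← Finset.sum_sub_distrib]
      simp only [hin, ← smul_sub]
      have h1 : ∑ z, w (f z) • (EuclideanSpace.single (f (π z)) (1 : ℂ) -
          EuclideanSpace.single (f (π' z)) (1 : ℂ)) =
          ∑ i ∈ (univ : Finset J).image f, w i • (EuclideanSpace.single (τ i) (1 : ℂ) -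
          EuclideanSpace.single (τ' i) (1 : ℂ)) := by
        rw [Finset.sum_image (fun z _ z' _ h => hf h)]
        refine Finset.sum_congr rfl fun z _ => ?_
        rw [hτ, hτ']
      rw [h1]
      symm
      refine Finset.sum_subset (Finset.subset_univ _) fun i _ hi => ?_
      have h2 : ∀ z, i ≠ f z := by
        intro z h
        exact hi (Finset.mem_image.2 ⟨z, mem_univ _, h.symm⟩)
      rw [hτ0 i h2, hτ0' i h2, sub_self, smul_zero]) hpi
  simp only [hin] at key
  exact key

end Pool.Agent.V7H89.BS
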